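import Mathlib

/-!
# A smooth periodic function which is linear near the points of a lattice
-/

set_option autoImplicit false

open Set Filter Topology

namespace Pool.Agent.H576R3.AF

/-- a bump function at zero -/
noncomputable def bmp : ContDiffBump (0 : ℝ) := ⟨1 / 8, 1 / 4, by norm_num, by norm_num⟩

/-- the periodic sawtooth, smoothed -/
noncomputable def saw (t : ℝ) : ℝ := bmp (t - round t) * (t - round t)

theorem saw_per (t : ℝ) : saw (t + 1) = saw t := by
  unfold saw
  have : round (t + 1) = round t + 1 := round_add_one t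
  rw [this]
  push_cast
  rw [show t + 1 - ((round t : ℝ) + 1) = t - round t by ring]

theorem saw_int (t : ℝ) (m : ℤ) : saw (t + m) = saw t := by
  unfold saw
  rw [round_add_intCast]
  push_cast
  rw [show t + (m : ℝ) - ((round t : ℝ) + m) = t - round t by ring]

theorem saw_near {t : ℝ} {m : ℤ} (h : |t - m| < 1 / 2) :
    saw t = bmp (t - m) * (t - m) := by
  have : round t = m := by
    rw [round_eq]
    rw [Int.floor_eq_iff]
    rw [abs_lt] at h
    constructor <;> linarith [h.1, h.2]
  unfold saw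
  rw [this]

theorem saw_eq {t : ℝ} (h : |t| ≤ 1 / 8) : saw t = t := by
  have h1 : |t - (0 : ℤ)| < 1 / 2 := by
    push_cast
    rw [sub_zero]
    linarith
  rw [saw_near h1]
  have h2 : bmp (t - (0 : ℤ)) = 1 := by
    apply bmp.one_of_mem_closedBall
    rw [Metric.mem_closedBall, Real.dist_eq]
    push_cast
    rw [sub_zero, sub_zero]
    exact h
  rw [h2]
  push_cast
  ring

theorem saw_smooth : ContDiff ℝ (⊤ : ℕ∞) saw := by
  rw [contDiff_iff_contDiffAt]
  intro t
  have hs : ∀ m : ℤ, ContDiff ℝ (⊤ : ℕ∞) fun x : ℝ => bmp (x - m) * (x - m) := by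
    intro m
    have h1 : ContDiff ℝ (⊤ : ℕ∞) fun x : ℝ => x - (m : ℝ) := contDiff_id.sub contDiff_const
    exact (bmp.contDiff.comp h1).mul h1
  by_cases h : ∃ m : ℤ, |t - m| < 1 / 2
  · obtain ⟨m, hm⟩ := h
    have he : saw =ᶠ[𝓝 t] fun x : ℝ => bmp (x - m) * (x - m) := by
      have ho : IsOpen {x : ℝ | |x - m| < 1 / 2} :=
        isOpen_lt (by fun_prop) continuous_const
      filter_upwards [ho.mem_nhds hm] with x hx
      exact saw_near hx
    exact (hs m).contDiffAt.congr_of_eventuallyEq he
  · push Not at h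
    have hbig : ∀ m : ℤ, (1 : ℝ) / 2 ≤ |t - m| := h
    have he : saw =ᶠ[𝓝 t] fun _ => (0 : ℝ) := by
      filter_upwards [Metric.ball_mem_nhds t (show (0 : ℝ) < 1 / 4 by norm_num)] with x hx
      rw [Metric.mem_ball, Real.dist_eq] at hx
      unfold saw
      have h1 : (1 : ℝ) / 4 ≤ |x - round x| := by
        have h2 := hbig (round x)
        have h3 : |t - round x| ≤ |x - t| + |x - round x| := by
          have := abs_sub_le t x (round x)
          rw [abs_sub_comm t x] at this
          exact this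
        linarith
      have h2 : bmp (x - round x) = 0 := by
        apply bmp.zero_of_le_dist
        rw [Real.dist_eq, sub_zero]
        exact h1
      rw [h2, zero_mul]
    exact contDiffAt_const.congr_of_eventuallyEq he

/-- the `1 / N`-periodic version -/
noncomputable def sawN (N : ℕ) (t : ℝ) : ℝ := (N : ℝ)⁻¹ * saw (N * t)

theorem sawN_smooth (N : ℕ) : ContDiff ℝ (⊤ : ℕ∞) (sawN N) :=
  contDiff_const.mul (saw_smooth.comp (contDiff_const.mul contDiff_id))

theorem sawN_per (N : ℕ) (t : ℝ) : sawN N (t + 1) = sawN N t := by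
  unfold sawN
  have : (N : ℝ) * (t + 1) = N * t + ((N : ℤ) : ℝ) := by push_cast; ring
  rw [this, saw_int]

theorem sawN_lat {N : ℕ} (hN : 0 < N) (a : ℤ) (t : ℝ) (h : |t| ≤ 1 / (8 * N)) :
    sawN N ((a : ℝ) / N + t) = t := by
  unfold sawN
  have hN' : (0 : ℝ) < N := by exact_mod_cast hN
  have e : (N : ℝ) * ((a : ℝ) / N + t) = N * t + (a : ℝ) := by field_simp; ring
  have h1 : |(N : ℝ) * t| ≤ 1 / 8 := by
    rw [abs_mul, abs_of_pos hN']
    calc (N : ℝ) * |t| ≤ N * (1 / (8 * N)) := mul_le_mul_of_nonneg_left h hN'.le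
      _ = 1 / 8 := by field_simp
  rw [e, saw_int, saw_eq h1]
  field_simp

end Pool.Agent.H576R3.AF
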