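import Pool.Agent.H576R3.AF.Lin

/-!
# The hyperbolic splitting of a matrix without eigenvalues of modulus one
-/

set_option autoImplicit false

open Set Filter Topology

namespace Pool.Agent.H576R3.AF

variable {d : ℕ}

/-- exponential decay of the sequence of norms -/
def Dec {V : Type*} [NormedAddCommGroup V] (a : ℕ → V) : Prop :=
  ∃ C ρ : ℝ, 0 < C ∧ 0 < ρ ∧ ρ < 1 ∧ ∀ n, ‖a n‖ ≤ C * ρ ^ n

theorem Dec.add {V : Type*} [NormedAddCommGroup V] {a b : ℕ → V} (ha : Dec a) (hb : Dec b) :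
    Dec fun n => a n + b n := by
  obtain ⟨C, ρ, h1, h2, h3, h4⟩ := ha
  obtain ⟨C', ρ', h1', h2', h3', h4'⟩ := hb
  refine ⟨C + C', max ρ ρ', by positivity, lt_max_of_lt_left h2, max_lt h3 h3', fun n => ?_⟩
  have e1 : ρ ^ n ≤ (max ρ ρ') ^ n := pow_le_pow_left₀ h2.le (le_max_left _ _) n
  have e2 : ρ' ^ n ≤ (max ρ ρ') ^ n := pow_le_pow_left₀ h2'.le (le_max_right _ _) n
  calc ‖a n + b n‖ ≤ ‖a n‖ + ‖b n‖ := norm_add_le _ _
    _ ≤ C * ρ ^ n + C' * ρ' ^ n := add_le_add (h4 n) (h4' n)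
    _ ≤ C * (max ρ ρ') ^ n + C' * (max ρ ρ') ^ n := by gcongr
    _ = (C + C') * (max ρ ρ') ^ n := by ring

theorem Dec.of_le {V W : Type*} [NormedAddCommGroup V] [NormedAddCommGroup W] {a : ℕ → V}
    {b : ℕ → W} (K : ℝ) (ha : Dec a) (h : ∀ n, ‖b n‖ ≤ K * ‖a n‖) : Dec b := by
  obtain ⟨C, ρ, h1, h2, h3, h4⟩ := ha
  refine ⟨(|K| + 1) * C, ρ, by positivity, h2, h3, fun n => (h n).trans ?_⟩
  have h5 : K * ‖a n‖ ≤ (|K| + 1) * ‖a n‖ :=
    mul_le_mul_of_nonneg_right ((le_abs_self K).trans (by linarith)) (norm_nonneg _)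
  calc K * ‖a n‖ ≤ (|K| + 1) * ‖a n‖ := h5
    _ ≤ (|K| + 1) * (C * ρ ^ n) := mul_le_mul_of_nonneg_left (h4 n) (by positivity)
    _ = (|K| + 1) * C * ρ ^ n := by ring

/-- The recursion `‖a (n+1)‖ ≤ q ‖a n‖ + ‖b n‖`, `q < 1`, `b` decaying. -/
theorem Dec.rec {V W : Type*} [NormedAddCommGroup V] [NormedAddCommGroup W] {a : ℕ → V}
    {b : ℕ → W} {q : ℝ} (hq0 : 0 ≤ q) (hq : q < 1) (hb : Dec b)
    (h : ∀ n, ‖a (n + 1)‖ ≤ q * ‖a n‖ + ‖b n‖) : Dec a := by
  obtain ⟨C, ρ, h1, h2, h3, h4⟩ := hb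
  set σ : ℝ := (max q ρ + 1) / 2 with hσ
  have hm1 : max q ρ < 1 := max_lt hq h3
  have hm0 : 0 < max q ρ := lt_max_of_lt_right h2
  have hs1 : max q ρ < σ := by rw [hσ]; linarith
  have hs2 : σ < 1 := by rw [hσ]; linarith
  have hs0 : 0 < σ := hm0.trans hs1
  have hqσ : q < σ := lt_of_le_of_lt (le_max_left _ _) hs1
  have hρσ : ρ < σ := lt_of_le_of_lt (le_max_right _ _) hs1
  set D : ℝ := ‖a 0‖ + C / (σ - q) with hD
  have hd : 0 < σ - q := by linarith
  have hD0 : 0 < D := by positivity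
  refine ⟨D, σ, hD0, hs0, hs2, fun n => ?_⟩
  induction n with
  | zero => rw [pow_zero, mul_one, hD]; have : 0 < C / (σ - q) := by positivity
            linarith
  | succ n ih =>
    have e1 : ρ ^ n ≤ σ ^ n := pow_le_pow_left₀ h2.le hρσ.le n
    have e2 : C ≤ D * (σ - q) := by
      have : C = C / (σ - q) * (σ - q) := by field_simp
      rw [hD]
      nlinarith [norm_nonneg (a 0)]
    have hσn : 0 < σ ^ n := by positivity
    calc ‖a (n + 1)‖ ≤ q * ‖a n‖ + ‖b n‖ := h n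
      _ ≤ q * (D * σ ^ n) + C * ρ ^ n := add_le_add (mul_le_mul_of_nonneg_left ih hq0) (h4 n)
      _ ≤ q * (D * σ ^ n) + C * σ ^ n := by gcongr
      _ ≤ q * (D * σ ^ n) + D * (σ - q) * σ ^ n := by gcongr
      _ = D * σ ^ (n + 1) := by ring

/-- vectors with exponentially decaying forward orbit -/
def decSub (A : Matrix (Fin d) (Fin d) ℝ) : Submodule ℝ (Fin d → ℝ) where
  carrier := {v | Dec fun n => (A ^ n).mulVec v}
  add_mem' := by
    intro v w hv hw
    have h := Dec.add hv hw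
    show Dec fun n => (A ^ n).mulVec (v + w)
    simp only [Matrix.mulVec_add]
    exact h
  zero_mem' := ⟨1, 1 / 2, one_pos, by norm_num, by norm_num, fun n => by
    simp only [Matrix.mulVec_zero, norm_zero]; positivity⟩
  smul_mem' := by
    intro c v hv
    refine Dec.of_le ‖c‖ hv fun n => ?_
    simp only [Matrix.mulVec_smul]
    rw [norm_smul]

theorem mem_decSub {A : Matrix (Fin d) (Fin d) ℝ} {v : Fin d → ℝ} :
    v ∈ decSub A ↔ Dec fun n => (A ^ n).mulVec v := Iff.rfl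

theorem re_pow (A : Matrix (Fin d) (Fin d) ℝ) (n : ℕ) (z : Fin d → ℂ) :
    (A ^ n).mulVec (re z) = re (((BC A) ^ n) z) := by
  induction n with
  | zero => simp
  | succ n ih =>
    rw [pow_succ', pow_succ', Module.End.mul_apply, re_BC, ← ih, Matrix.mulVec_mulVec]

/-- generalised eigenvectors for eigenvalues inside of the unit circle -/
theorem dec_in (B : Module.End ℂ (Fin d → ℂ)) {μ : ℂ} (hμ : ‖μ‖ < 1) :
    ∀ (k : ℕ) (z : Fin d → ℂ), ((B - μ • (1 : Module.End ℂ (Fin d → ℂ))) ^ k) z = 0 →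
      Dec fun n => (B ^ n) z := by
  intro k
  induction k with
  | zero =>
    intro z hz
    have hz0 : z = 0 := by simpa using hz
    subst hz0
    exact ⟨1, 1 / 2, one_pos, by norm_num, by norm_num, fun n => by
      simp only [map_zero, norm_zero]; positivity⟩
  | succ k ih =>
    intro z hz
    rw [pow_succ, Module.End.mul_apply] at hz
    have h1 := ih _ hz
    refine Dec.rec (norm_nonneg μ) hμ h1 fun n => ?_
    have h2 : (B ^ (n + 1)) z = μ • (B ^ n) z +
        (B ^ n) ((B - μ • (1 : Module.End ℂ (Fin d → ℂ))) z) := by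
      rw [pow_succ, Module.End.mul_apply]
      simp only [LinearMap.sub_apply, LinearMap.smul_apply, Module.End.one_apply, map_sub,
        map_smul]
      abel
    rw [h2, ← norm_smul]
    exact norm_add_le _ _

/-- generalised eigenvectors for eigenvalues outside of the unit circle -/
theorem dec_out (B C : Module.End ℂ (Fin d → ℂ)) (hCB : ∀ z, C (B z) = z) {μ : ℂ}
    (hμ : 1 < ‖μ‖) :
    ∀ (k : ℕ) (z : Fin d → ℂ), ((B - μ • (1 : Module.End ℂ (Fin d → ℂ))) ^ k) z = 0 →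
      Dec fun n => (C ^ n) z := by
  have hμ0 : μ ≠ 0 := by
    intro h; rw [h] at hμ; simp at hμ; linarith
  intro k
  induction k with
  | zero =>
    intro z hz
    have hz0 : z = 0 := by simpa using hz
    subst hz0
    exact ⟨1, 1 / 2, one_pos, by norm_num, by norm_num, fun n => by
      simp only [map_zero, norm_zero]; positivity⟩
  | succ k ih =>
    intro z hz
    rw [pow_succ, Module.End.mul_apply] at hz
    have h1 := ih _ hz
    set y := (B - μ • (1 : Module.End ℂ (Fin d → ℂ))) z with hy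
    have h3 : B z = μ • z + y := by
      rw [hy]
      simp only [LinearMap.sub_apply, LinearMap.smul_apply, Module.End.one_apply]
      abel
    have h4 : C z = μ⁻¹ • (z - C y) := by
      have h5 : z = μ • C z + C y := by
        rw [← map_smul, ← map_add, ← h3, hCB]
      have h6 : μ • C z = z - C y := by
        rw [eq_sub_iff_add_eq]
        exact h5.symm
      rw [← h6, smul_smul, inv_mul_cancel₀ hμ0, one_smul]
    have hq : ‖μ‖⁻¹ < 1 := inv_lt_one_of_one_lt₀ hμ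
    have h7 : Dec fun n => (C ^ (n + 1)) y := by
      obtain ⟨D, ρ, a1, a2, a3, a4⟩ := h1
      refine ⟨D, ρ, a1, a2, a3, fun n => (a4 (n + 1)).trans ?_⟩
      have : ρ ^ (n + 1) ≤ ρ ^ n := pow_le_pow_of_le_one a2.le a3.le (Nat.le_succ n)
      exact mul_le_mul_of_nonneg_left this a1.le
    have h8 : Dec fun n => μ⁻¹ • (C ^ (n + 1)) y :=
      Dec.of_le ‖μ⁻¹‖ h7 fun n => by rw [norm_smul]
    refine Dec.rec (by positivity) hq h8 fun n => ?_
    have h2 : (C ^ (n + 1)) z = μ⁻¹ • (C ^ n) z - μ⁻¹ • (C ^ (n + 1)) y := by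
      rw [pow_succ, Module.End.mul_apply, h4, map_smul, map_sub, Module.End.mul_apply, smul_sub]
    rw [h2, ← norm_inv, ← norm_smul]
    exact norm_sub_le _ _

theorem BC_mul (A A' : Matrix (Fin d) (Fin d) ℝ) (z : Fin d → ℂ) :
    BC (A * A') z = BC A (BC A' z) := by
  have e : (A * A').map Complex.ofReal = A.map Complex.ofReal * A'.map Complex.ofReal := by
    have h := (Complex.ofRealHom.mapMatrix : Matrix (Fin d) (Fin d) ℝ →+* _).map_mul A A'
    exact h
  show ((A * A').map Complex.ofReal).mulVec z = _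
  rw [e, ← Matrix.mulVec_mulVec]
  rfl

theorem BC_one (z : Fin d → ℂ) : BC (1 : Matrix (Fin d) (Fin d) ℝ) z = z := by
  have e : (1 : Matrix (Fin d) (Fin d) ℝ).map Complex.ofReal = 1 := by
    have h := (Complex.ofRealHom.mapMatrix : Matrix (Fin d) (Fin d) ℝ →+* _).map_one
    exact h
  show ((1 : Matrix (Fin d) (Fin d) ℝ).map Complex.ofReal).mulVec z = z
  rw [e, Matrix.one_mulVec]

theorem sup_eq_top {A : Matrix (Fin d) (Fin d) ℝ} (hA : IsUnit A.det)
    (hyp : ∀ μ : ℂ, ‖μ‖ = 1 → ¬ (BC A).HasEigenvalue μ) :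
    decSub A ⊔ decSub A⁻¹ = ⊤ := by
  have hCB : ∀ z, BC A⁻¹ (BC A z) = z := fun z => by
    rw [← BC_mul, Matrix.nonsing_inv_mul _ hA, BC_one]
  have key : ∀ z : Fin d → ℂ, re z ∈ decSub A ⊔ decSub A⁻¹ := by
    intro z
    have hz : z ∈ (⨆ μ : ℂ, (BC A).maxGenEigenspace μ) := by
      rw [Module.End.iSup_maxGenEigenspace_eq_top]
      exact Submodule.mem_top
    refine Submodule.iSup_induction (fun μ : ℂ => (BC A).maxGenEigenspace μ)
      (motive := fun z => re z ∈ decSub A ⊔ decSub A⁻¹) hz ?_ ?_ ?_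
    · intro μ x hx
      rw [Module.End.mem_maxGenEigenspace] at hx
      obtain ⟨k, hk⟩ := hx
      rcases lt_trichotomy ‖μ‖ 1 with h | h | h
      · apply Submodule.mem_sup_left
        rw [mem_decSub]
        refine Dec.of_le 1 (dec_in (BC A) h k x hk) fun n => ?_
        rw [re_pow, one_mul]
        exact norm_re _
      · have hx0 : x = 0 := by
          have hinj : ∀ y, (BC A - μ • (1 : Module.End ℂ (Fin d → ℂ))) y = 0 → y = 0 := by
            intro y hy
            by_contra hy0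
            apply hyp μ h
            refine Module.End.hasEigenvalue_of_hasEigenvector (x := y)
              ⟨Module.End.mem_eigenspace_iff.2 ?_, hy0⟩
            simp only [LinearMap.sub_apply, LinearMap.smul_apply, Module.End.one_apply] at hy
            exact sub_eq_zero.1 hy
          clear hz
          induction k with
          | zero => simpa using hk
          | succ k ih =>
            rw [pow_succ', Module.End.mul_apply] at hk
            exact ih (hinj _ hk)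
        rw [hx0]
        have : re (0 : Fin d → ℂ) = 0 := by funext i; simp [re]
        rw [this]
        exact Submodule.zero_mem _
      · apply Submodule.mem_sup_right
        rw [mem_decSub]
        refine Dec.of_le 1 (dec_out (BC A) (BC A⁻¹) hCB h k x hk) fun n => ?_
        rw [re_pow, one_mul]
        exact norm_re _
    · have : re (0 : Fin d → ℂ) = 0 := by funext i; simp [re]
      rw [this]
      exact Submodule.zero_mem _
    · intro x y hx hy
      have : re (x + y) = re x + re y := by funext i; simp [re]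
      rw [this]
      exact Submodule.add_mem _ hx hy
  rw [eq_top_iff]
  intro v _
  have h := key (cx v)
  have e : re (cx v) = v := by funext i; simp [re, cx]
  rwa [e] at h

theorem inf_eq_bot {A : Matrix (Fin d) (Fin d) ℝ} (hA : IsUnit A.det)
    (hyp : ∀ μ : ℂ, ‖μ‖ = 1 → ¬ (BC A).HasEigenvalue μ) :
    decSub A ⊓ decSub A⁻¹ = ⊥ := by
  rw [eq_bot_iff]
  rintro v ⟨hv1, hv2⟩
  obtain ⟨C, ρ, h1, h2, h3, h4⟩ := mem_decSub.1 hv1
  obtain ⟨C', ρ', h1', h2', h3', h4'⟩ := mem_decSub.1 hv2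
  have key := zero_of_bdd hA hyp (fun n => (A ^ n).mulVec v) (C + C') (fun n => ?_) (fun n => ?_)
  · simpa using key
  · show (A ^ (n + 1)).mulVec v = A.mulVec ((A ^ n).mulVec v)
    rw [Matrix.mulVec_mulVec, add_comm n 1, Matrix.zpow_add hA, zpow_one]
  · show ‖(A ^ n).mulVec v‖ ≤ C + C'
    rcases Int.eq_nat_or_neg n with ⟨m, rfl | rfl⟩
    · rw [zpow_natCast]
      have : ρ ^ m ≤ 1 := pow_le_one₀ h2.le h3.le
      nlinarith [h4 m]
    · rw [Matrix.zpow_neg_natCast, ← Matrix.inv_pow']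
      have : ρ' ^ m ≤ 1 := pow_le_one₀ h2'.le h3'.le
      nlinarith [h4' m]

theorem decSub_inv {A : Matrix (Fin d) (Fin d) ℝ} {v : Fin d → ℝ} (hv : v ∈ decSub A) :
    A.mulVec v ∈ decSub A := by
  obtain ⟨C, ρ, h1, h2, h3, h4⟩ := mem_decSub.1 hv
  refine ⟨C, ρ, h1, h2, h3, fun n => ?_⟩
  have e : (A ^ n).mulVec (A.mulVec v) = (A ^ (n + 1)).mulVec v := by
    rw [Matrix.mulVec_mulVec, pow_succ]
  simp only [e]
  refine (h4 (n + 1)).trans ?_
  exact mul_le_mul_of_nonneg_left (pow_le_pow_of_le_one h2.le h3.le (Nat.le_succ n)) h1.le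

theorem decSub_inv' {A : Matrix (Fin d) (Fin d) ℝ} (hA : IsUnit A.det) {v : Fin d → ℝ}
    (hv : v ∈ decSub A⁻¹) : A.mulVec v ∈ decSub A⁻¹ := by
  obtain ⟨C, ρ, h1, h2, h3, h4⟩ := mem_decSub.1 hv
  refine ⟨C / ρ + ‖A.mulVec v‖, ρ, by positivity, h2, h3, fun n => ?_⟩
  rcases n with _ | n
  · simp only [pow_zero, Matrix.one_mulVec, mul_one]
    have : 0 < C / ρ := by positivity
    linarith
  · have e : (A⁻¹ ^ (n + 1)).mulVec (A.mulVec v) = (A⁻¹ ^ n).mulVec v := by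
      rw [Matrix.mulVec_mulVec, pow_succ, mul_assoc, Matrix.nonsing_inv_mul _ hA, mul_one]
    simp only [e]
    refine (h4 n).trans ?_
    have h5 : C * ρ ^ n = C / ρ * ρ ^ (n + 1) := by
      rw [pow_succ]; field_simp
    rw [h5]
    have : 0 ≤ ‖A.mulVec v‖ * ρ ^ (n + 1) := by positivity
    linarith

theorem exists_unif {ι : Type*} (s : Finset ι) (a : ι → ℕ → Fin d → ℝ) (h : ∀ i, Dec (a i)) :
    ∃ C ρ : ℝ, 0 < C ∧ 0 < ρ ∧ ρ < 1 ∧ ∀ i ∈ s, ∀ n, ‖a i n‖ ≤ C * ρ ^ n := by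
  classical
  induction s using Finset.induction_on with
  | empty => exact ⟨1, 1 / 2, one_pos, by norm_num, by norm_num, fun i hi => by simp at hi⟩
  | insert i s hi ih =>
    obtain ⟨C, ρ, h1, h2, h3, h4⟩ := ih
    obtain ⟨C', ρ', h1', h2', h3', h4'⟩ := h i
    refine ⟨C + C', max ρ ρ', by positivity, lt_max_of_lt_left h2, max_lt h3 h3',
      fun j hj n => ?_⟩
    have e1 : ρ ^ n ≤ (max ρ ρ') ^ n := pow_le_pow_left₀ h2.le (le_max_left _ _) n
    have e2 : ρ' ^ n ≤ (max ρ ρ') ^ n := pow_le_pow_left₀ h2'.le (le_max_right _ _) n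
    have e3 : 0 ≤ (max ρ ρ') ^ n := by positivity
    rcases Finset.mem_insert.1 hj with rfl | hj
    · calc ‖a j n‖ ≤ C' * ρ' ^ n := h4' n
        _ ≤ C' * (max ρ ρ') ^ n := by gcongr
        _ ≤ (C + C') * (max ρ ρ') ^ n := by nlinarith
    · calc ‖a j n‖ ≤ C * ρ ^ n := h4 j hj n
        _ ≤ C * (max ρ ρ') ^ n := by gcongr
        _ ≤ (C + C') * (max ρ ρ') ^ n := by nlinarith

theorem unif (T : Matrix (Fin d) (Fin d) ℝ) (P : (Fin d → ℝ) →ₗ[ℝ] (Fin d → ℝ))
    (hP : ∀ v, P v ∈ decSub T) :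
    ∃ C ρ : ℝ, 0 < C ∧ 0 < ρ ∧ ρ < 1 ∧ ∀ n v, ‖(T ^ n).mulVec (P v)‖ ≤ C * ρ ^ n * ‖v‖ := by
  obtain ⟨C, ρ, h1, h2, h3, h4⟩ := exists_unif (d := d) (Finset.univ : Finset (Fin d))
    (fun i n => (T ^ n).mulVec (P (Pi.single i 1))) (fun i => hP _)
  refine ⟨(d + 1) * C, ρ, by positivity, h2, h3, fun n v => ?_⟩
  have e : (T ^ n).mulVec (P v) = ∑ i, v i • (T ^ n).mulVec (P (Pi.single i 1)) := by
    have h5 : v = ∑ i, v i • (Pi.single i 1 : Fin d → ℝ) := by
      funext j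
      simp [Finset.sum_apply, Pi.single_apply]
    conv_lhs => rw [h5]
    rw [map_sum]
    simp only [map_smul]
    rw [show (T ^ n).mulVec (∑ i, v i • P (Pi.single i 1)) =
      (Matrix.mulVecLin (T ^ n)) (∑ i, v i • P (Pi.single i 1)) from rfl, map_sum]
    simp only [map_smul]
    rfl
  rw [e]
  have hpos : 0 ≤ C * ρ ^ n := by positivity
  calc ‖∑ i, v i • (T ^ n).mulVec (P (Pi.single i 1))‖
      ≤ ∑ i, ‖v i • (T ^ n).mulVec (P (Pi.single i 1))‖ := norm_sum_le _ _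
    _ ≤ ∑ _i : Fin d, ‖v‖ * (C * ρ ^ n) := by
        apply Finset.sum_le_sum
        intro i _
        rw [norm_smul]
        exact mul_le_mul (norm_le_pi_norm v i) (h4 i (Finset.mem_univ i) n) (norm_nonneg _)
          (norm_nonneg _)
    _ = d * (C * ρ ^ n * ‖v‖) := by
        rw [Finset.sum_const, Finset.card_univ, Fintype.card_fin, nsmul_eq_mul]; ring
    _ ≤ (d + 1) * C * ρ ^ n * ‖v‖ := by nlinarith [mul_nonneg hpos (norm_nonneg v)]

theorem exists_proj {p q : Submodule ℝ (Fin d → ℝ)} (hc : IsCompl p q) :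
    ∃ Q : (Fin d → ℝ) →ₗ[ℝ] (Fin d → ℝ), (∀ v, Q v ∈ p) ∧ (∀ v ∈ p, Q v = v) ∧
      ∀ v ∈ q, Q v = 0 := by
  refine ⟨p.subtype ∘ₗ Submodule.projectionOnto p q hc, fun v => ?_, fun v hv => ?_,
    fun v hv => ?_⟩
  · rw [LinearMap.comp_apply]
    exact (Submodule.projectionOnto p q hc v).2
  · rw [LinearMap.comp_apply]
    have h := Submodule.projectionOnto_apply_left hc ⟨v, hv⟩
    have h2 : Submodule.projectionOnto p q hc v = ⟨v, hv⟩ := h
    rw [h2]
    rfl
  · rw [LinearMap.comp_apply, (Submodule.projectionOnto_apply_eq_zero_iff hc).2 hv, map_zero]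

/-- The hyperbolic splitting. -/
theorem splitting {A : Matrix (Fin d) (Fin d) ℝ} (hA : IsUnit A.det)
    (hyp : ∀ μ : ℂ, ‖μ‖ = 1 → ¬ (BC A).HasEigenvalue μ) :
    ∃ (P : (Fin d → ℝ) →L[ℝ] (Fin d → ℝ)) (c μ : ℝ), 0 < c ∧ 0 < μ ∧ μ < 1 ∧
      (∀ v, P (P v) = P v) ∧ (∀ v, A.mulVec (P v) = P (A.mulVec v)) ∧
      ∀ (m : ℕ) (v : Fin d → ℝ), ‖(A ^ m).mulVec (P v)‖ ≤ c * μ ^ m * ‖P v‖ ∧
        ‖(A⁻¹ ^ m).mulVec (v - P v)‖ ≤ c * μ ^ m * ‖v - P v‖ := by
  have hc : IsCompl (decSub A) (decSub A⁻¹) :=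
    ⟨disjoint_iff.2 (inf_eq_bot hA hyp), codisjoint_iff.2 (sup_eq_top hA hyp)⟩
  obtain ⟨Q, hQ1, hQs, hQu⟩ := exists_proj hc
  have hQ2 : ∀ v, v - Q v ∈ decSub A⁻¹ := by
    intro v
    have hv : v ∈ decSub A ⊔ decSub A⁻¹ := by rw [sup_eq_top hA hyp]; trivial
    obtain ⟨a, ha, b, hb, rfl⟩ := Submodule.mem_sup.1 hv
    rw [map_add, hQs a ha, hQu b hb, add_zero, add_sub_cancel_left]
    exact hb
  have hQQ : ∀ v, Q (Q v) = Q v := fun v => hQs _ (hQ1 v)
  have hQA : ∀ v, A.mulVec (Q v) = Q (A.mulVec v) := by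
    intro v
    have h1 : A.mulVec v = A.mulVec (Q v) + A.mulVec (v - Q v) := by
      rw [← Matrix.mulVec_add]; congr 1; abel
    rw [h1, map_add, hQs _ (decSub_inv (hQ1 v)), hQu _ (decSub_inv' hA (hQ2 v)), add_zero]
  obtain ⟨C, ρ, h1, h2, h3, h4⟩ := unif A Q hQ1
  obtain ⟨C', ρ', h1', h2', h3', h4'⟩ := unif A⁻¹ (LinearMap.id - Q) (fun v => by
    rw [LinearMap.sub_apply, LinearMap.id_apply]; exact hQ2 v)
  have hcc : 0 < C + C' := by linarith
  refine ⟨LinearMap.toContinuousLinearMap Q, C + C', max ρ ρ', hcc,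
    lt_max_of_lt_left h2, max_lt h3 h3', fun v => ?_, fun v => ?_, fun m v => ⟨?_, ?_⟩⟩
  · rw [LinearMap.coe_toContinuousLinearMap']
    exact hQQ v
  · rw [LinearMap.coe_toContinuousLinearMap']
    exact hQA v
  · rw [LinearMap.coe_toContinuousLinearMap']
    have h5 := h4 m (Q v)
    rw [hQQ] at h5
    refine h5.trans ?_
    have e1 : ρ ^ m ≤ (max ρ ρ') ^ m := pow_le_pow_left₀ h2.le (le_max_left _ _) m
    have e3 : C * ρ ^ m ≤ (C + C') * (max ρ ρ') ^ m := by
      have : 0 ≤ (max ρ ρ') ^ m := by positivity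
      nlinarith
    exact mul_le_mul_of_nonneg_right e3 (norm_nonneg _)
  · rw [LinearMap.coe_toContinuousLinearMap']
    have h5 := h4' m (v - Q v)
    have e0 : (LinearMap.id - Q : (Fin d → ℝ) →ₗ[ℝ] (Fin d → ℝ)) (v - Q v) = v - Q v := by
      rw [LinearMap.sub_apply, LinearMap.id_apply, map_sub, hQQ, sub_self, sub_zero]
    rw [e0] at h5
    refine h5.trans ?_
    have e1 : ρ' ^ m ≤ (max ρ ρ') ^ m := pow_le_pow_left₀ h2'.le (le_max_right _ _) m
    have e3 : C' * ρ' ^ m ≤ (C + C') * (max ρ ρ') ^ m := by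
      have : 0 ≤ (max ρ ρ') ^ m := by positivity
      nlinarith
    exact mul_le_mul_of_nonneg_right e3 (norm_nonneg _)

end Pool.Agent.H576R3.AF
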