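import Pool.Agent.H637R2.TD.S.PROD
import Pool.Agent.H637R2.TD.S.CLOSE
import Pool.Agent.H637R2.TD.S.SIGN
import Pool.Agent.H728R2.OS.S.NOCYC
import Pool.Agent.H576R3.AF.Split
import Pool.Agent.H576R3.AF.Bump

/-!
# Affine diffeomorphisms of tori
-/

set_option autoImplicit false

open Set Filter Topology

namespace Pool.Agent.H576R3.AF

open Pool.Agent.H728R2.OS Pool.Agent.H637R2.TD

variable {d : ℕ}

theorem tt_surj (x : Torus d) : ∃ z : Fin d → ℝ, toTorus z = x := by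
  choose z hz using fun i => QuotientAddGroup.mk_surjective (x i)
  exact ⟨z, funext hz⟩

theorem tt_add (z w : Fin d → ℝ) : toTorus (z + w) = toTorus z + toTorus w := by
  funext i
  exact AddCircle.coe_add _ _ _

theorem tt_int (a : Fin d → ℤ) : toTorus (fun i => (a i : ℝ)) = 0 := by
  funext i
  exact (AddCircle.coe_eq_zero_iff (1 : ℝ)).2 ⟨a i, by simp⟩

theorem tt_eq {z w : Fin d → ℝ} (h : toTorus z = toTorus w) :
    ∃ a : Fin d → ℤ, z = w + fun i => (a i : ℝ) := by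
  have h1 : ∀ i, ∃ n : ℤ, z i = w i + n := by
    intro i
    have h2 : ((z i : ℝ) : UnitAddCircle) = (w i : ℝ) := congrFun h i
    have h3 : ((z i - w i : ℝ) : UnitAddCircle) = 0 := by
      rw [AddCircle.coe_sub, h2, sub_self]
    obtain ⟨n, hn⟩ := (AddCircle.coe_eq_zero_iff (1 : ℝ)).1 h3
    refine ⟨n, ?_⟩
    simp only [zsmul_eq_mul, mul_one] at hn
    linarith
  choose a ha using h1
  exact ⟨a, funext ha⟩

/-- small vectors are determined by their images -/
theorem tt_inj {z w : Fin d → ℝ} (hz : ‖z‖ < 1 / 2) (hw : ‖w‖ < 1 / 2)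
    (h : toTorus z = toTorus w) : z = w := by
  obtain ⟨a, ha⟩ := tt_eq h
  have : a = 0 := by
    funext i
    have h1 : (a i : ℝ) = z i - w i := by
      have := congrFun ha i
      simp only [Pi.add_apply] at this
      linarith
    have h2 : |(a i : ℝ)| < 1 := by
      rw [h1]
      have h3 : |z i| < 1 / 2 := (norm_le_pi_norm z i).trans_lt hz
      have h4 : |w i| < 1 / 2 := (norm_le_pi_norm w i).trans_lt hw
      have h5 := abs_sub (z i) (w i)
      linarith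
    have h3 : |a i| < 1 := by exact_mod_cast h2
    exact Int.abs_lt_one_iff.mp h3
  rw [ha, this]
  funext i
  simp

/-- every point of the torus has a representative of the same norm -/
theorem exists_rep (x : Torus d) : ∃ v : Fin d → ℝ, toTorus v = x ∧ ‖v‖ = ‖x‖ := by
  have h : ∀ i, ∃ r : ℝ, ((r : ℝ) : UnitAddCircle) = x i ∧ |r| = ‖x i‖ := by
    intro i
    obtain ⟨r, hr⟩ := QuotientAddGroup.mk_surjective (x i)
    have hr' : ((r : ℝ) : UnitAddCircle) = x i := hr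
    refine ⟨r - round r, ?_, ?_⟩
    · rw [AddCircle.coe_sub, hr']
      have : (((round r : ℤ) : ℝ) : UnitAddCircle) = 0 :=
        (AddCircle.coe_eq_zero_iff (1 : ℝ)).2 ⟨round r, by simp⟩
      rw [this, sub_zero]
    · rw [← hr', UnitAddCircle.norm_eq]
  choose v hv1 hv2 using h
  refine ⟨v, funext hv1, ?_⟩
  apply le_antisymm
  · rw [pi_norm_le_iff_of_nonneg (norm_nonneg _)]
    intro i
    rw [Real.norm_eq_abs, hv2]
    exact norm_le_pi_norm x i
  · rw [pi_norm_le_iff_of_nonneg (norm_nonneg _)]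
    intro i
    rw [← hv2, ← Real.norm_eq_abs]
    exact norm_le_pi_norm v i

theorem norm_tt_le (z : Fin d → ℝ) : ‖toTorus z‖ ≤ ‖z‖ := by
  rw [pi_norm_le_iff_of_nonneg (norm_nonneg _)]
  intro i
  show ‖((z i : ℝ) : UnitAddCircle)‖ ≤ ‖z‖
  refine le_trans ?_ (norm_le_pi_norm z i)
  rw [UnitAddCircle.norm_eq, Real.norm_eq_abs]
  have := round_le (z i) 0
  simpa using this

theorem cont_tt : Continuous (toTorus (d := d)) :=
  continuous_pi fun i => (AddCircle.continuous_mk' (1 : ℝ)).comp (continuous_apply i)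

/-- `f` has the lift `z ↦ A z + o'`. -/
def HasAff (A : Matrix (Fin d) (Fin d) ℤ) (b : Fin d → ℝ) (f : Torus d → Torus d) : Prop :=
  ∀ z, f (toTorus z) = toTorus ((A.map (Int.cast : ℤ → ℝ)).mulVec z + b)

theorem mulVec_int (A : Matrix (Fin d) (Fin d) ℤ) (a : Fin d → ℤ) :
    (A.map (Int.cast : ℤ → ℝ)).mulVec (fun i => (a i : ℝ)) = fun i => ((A.mulVec a i : ℤ) : ℝ) := by
  funext i
  show ∑ j, ((A i j : ℤ) : ℝ) * (a j : ℝ) = ((∑ j, A i j * a j : ℤ) : ℝ)
  push_cast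
  rfl

theorem det_real {A : Matrix (Fin d) (Fin d) ℤ} (hA : IsUnit A.det) :
    IsUnit (A.map (Int.cast : ℤ → ℝ)).det := by
  have h2 := RingHom.map_det (Int.castRingHom ℝ) A
  have e : (Int.castRingHom ℝ).mapMatrix A = A.map (Int.cast : ℤ → ℝ) := rfl
  rw [e] at h2
  rw [← h2]
  exact hA.map (Int.castRingHom ℝ)

theorem aff_diffeo {A : Matrix (Fin d) (Fin d) ℤ} (hA : IsUnit A.det) {b : Fin d → ℝ}
    {f : Torus d ≃ₜ Torus d} (hf : HasAff A b f) (r : ℕ∞) : IsDiffeo toTorus r f := by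
  set B := A.map (Int.cast : ℤ → ℝ) with hB
  refine ⟨⟨fun z => B.mulVec z + b, ?_, fun z => (hf z).symm⟩,
    ⟨fun z => B⁻¹.mulVec (z - b), ?_, fun z => ?_⟩⟩
  · exact (ContinuousLinearMap.contDiff (LinearMap.toContinuousLinearMap
      (Matrix.mulVecLin B))).add contDiff_const
  · exact (ContinuousLinearMap.contDiff (LinearMap.toContinuousLinearMap
      (Matrix.mulVecLin B⁻¹))).comp (contDiff_id.sub contDiff_const)
  · apply f.injective
    rw [f.apply_symm_apply, hf, Matrix.mulVec_mulVec, Matrix.mul_nonsing_inv _ (det_real hA),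
      Matrix.one_mulVec, sub_add_cancel]

theorem diffeo_comp {r : ℕ∞} {f g : Torus d ≃ₜ Torus d} (hf : IsDiffeo toTorus r f)
    (hg : IsDiffeo toTorus r g) : IsDiffeo toTorus r (f.trans g) := by
  obtain ⟨⟨F, hF, hF'⟩, ⟨F1, hF1, hF1'⟩⟩ := hf
  obtain ⟨⟨G, hG, hG'⟩, ⟨G1, hG1, hG1'⟩⟩ := hg
  refine ⟨⟨G ∘ F, hG.comp hF, fun z => ?_⟩, ⟨F1 ∘ G1, hF1.comp hG1, fun z => ?_⟩⟩
  · show toTorus (G (F z)) = g (f (toTorus z))
    rw [hG', hF']
  · show toTorus (F1 (G1 z)) = f.symm (g.symm (toTorus z))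
    rw [hF1', hG1']

/-- a point of a finite set mapped into itself by an injective map is periodic -/
theorem per_of_fin {X : Type*} {f : X → X} (hf : Function.Injective f) {Q : Set X}
    (hQ : Q.Finite) (hm : ∀ x ∈ Q, f x ∈ Q) {x : X} (hx : x ∈ Q) :
    ∃ n : ℕ, 0 < n ∧ f^[n] x = x := by
  have hit : ∀ n : ℕ, f^[n] x ∈ Q := by
    intro n
    induction n with
    | zero => exact hx
    | succ n ih => rw [Function.iterate_succ_apply']; exact hm _ ih
  have : Finite Q := hQ.to_subtype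
  obtain ⟨m, n, hmn, heq⟩ := Finite.exists_ne_map_eq_of_infinite
    (fun n : ℕ => (⟨f^[n] x, hit n⟩ : Q))
  have heq' : f^[m] x = f^[n] x := congrArg Subtype.val heq
  have key : ∀ m n : ℕ, m < n → f^[m] x = f^[n] x → ∃ k : ℕ, 0 < k ∧ f^[k] x = x := by
    intro m n hlt h
    refine ⟨n - m, by omega, ?_⟩
    apply hf.iterate m
    rw [← Function.iterate_add_apply, show m + (n - m) = n by omega]
    exact h.symm
  rcases lt_or_gt_of_ne hmn with h | h
  · exact key m n h heq'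
  · exact key n m h heq'.symm

/-- the lattice through `o` -/
def lat (o : Fin d → ℝ) (N : ℕ) : Set (Torus d) :=
  range fun a : Fin d → ℤ => toTorus (o + fun i => (a i : ℝ) / N)

theorem lat_fin (o : Fin d → ℝ) {N : ℕ} (hN : 0 < N) : (lat o N).Finite := by
  have hN' : (N : ℤ) ≠ 0 := by exact_mod_cast hN.ne'
  have hN'' : (N : ℝ) ≠ 0 := by exact_mod_cast hN.ne'
  have hfin : ((fun a : Fin d → ℤ => toTorus (o + fun i => (a i : ℝ) / N)) ''
      (Set.pi univ fun _ => Set.Icc (0 : ℤ) N)).Finite :=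
    (Set.Finite.pi fun _ => Set.finite_Icc _ _).image _
  refine hfin.subset ?_
  rintro _ ⟨a, rfl⟩
  refine ⟨fun i => a i % N, fun i _ => ⟨Int.emod_nonneg _ hN', (Int.emod_lt_of_pos _ (by
    exact_mod_cast hN)).le⟩, ?_⟩
  have e : (o + fun i => (a i : ℝ) / N) =
      (o + fun i => ((a i % N : ℤ) : ℝ) / N) + fun i => ((a i / N : ℤ) : ℝ) := by
    funext i
    have h := Int.emod_add_mul_ediv (a i) N
    have h' : ((a i % N : ℤ) : ℝ) + (N : ℝ) * ((a i / N : ℤ) : ℝ) = a i := by exact_mod_cast h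
    simp only [Pi.add_apply]
    rw [← h', add_div, mul_div_cancel_left₀ _ hN'']
    push_cast
    ring
  show toTorus (o + fun i => ((a i % N : ℤ) : ℝ) / N) = toTorus (o + fun i => (a i : ℝ) / N)
  rw [e, tt_add (o + fun i => ((a i % N : ℤ) : ℝ) / N), tt_int, add_zero]

theorem lat_map {A : Matrix (Fin d) (Fin d) ℤ} {b o : Fin d → ℝ} {f : Torus d → Torus d}
    (hf : HasAff A b f) {N : ℕ} {β : Fin d → ℤ}
    (ho : (A.map (Int.cast : ℤ → ℝ)).mulVec o + b = o + fun i => (β i : ℝ) / N)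
    (m : ℕ) (hm : 0 < m) :
    ∀ x ∈ lat o (N * m), f x ∈ lat o (N * m) := by
  rintro _ ⟨a, rfl⟩
  refine ⟨fun i => A.mulVec a i + m * β i, ?_⟩
  have hm' : (m : ℝ) ≠ 0 := by exact_mod_cast hm.ne'
  show toTorus _ = f (toTorus _)
  rw [hf, Matrix.mulVec_add]
  congr 1
  have e1 : (A.map (Int.cast : ℤ → ℝ)).mulVec (fun i => (a i : ℝ) / ((N * m : ℕ) : ℝ)) =
      fun i => ((A.mulVec a i : ℤ) : ℝ) / ((N * m : ℕ) : ℝ) := by
    have e2 : (fun i => (a i : ℝ) / ((N * m : ℕ) : ℝ)) =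
        (((N * m : ℕ) : ℝ)⁻¹) • fun i => (a i : ℝ) := by
      funext i; simp [div_eq_inv_mul]
    rw [e2, Matrix.mulVec_smul, mulVec_int]
    funext i
    simp [div_eq_inv_mul]
  rw [e1, add_right_comm, ho]
  funext i
  simp only [Pi.add_apply]
  push_cast
  have : (m : ℝ) * (β i : ℝ) / (N * m) = β i / N := by
    rw [mul_comm (N : ℝ) m]
    exact mul_div_mul_left _ _ hm'
  rw [add_div, this]
  ring

/-- periodic points are dense -/
theorem per_dense {A : Matrix (Fin d) (Fin d) ℤ} {b o : Fin d → ℝ} {f : Torus d ≃ₜ Torus d}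
    (hf : HasAff A b f) {N : ℕ} (hN : 0 < N) {β : Fin d → ℤ}
    (ho : (A.map (Int.cast : ℤ → ℝ)).mulVec o + b = o + fun i => (β i : ℝ) / N) :
    ∀ x : Torus d, x ∈ closure (Per f) := by
  intro x
  rw [Metric.mem_closure_iff]
  intro ε hε
  obtain ⟨z, rfl⟩ := tt_surj x
  obtain ⟨m, hm⟩ := exists_nat_gt (1 / ε)
  have hm0 : 0 < m := by
    have : (0 : ℝ) < m := lt_trans (by positivity) hm
    exact_mod_cast this
  have hM : (0 : ℝ) < ((N * m : ℕ) : ℝ) := by exact_mod_cast Nat.mul_pos hN hm0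
  set a : Fin d → ℤ := fun i => round ((z i - o i) * ((N * m : ℕ) : ℝ)) with ha
  have hmem : toTorus (o + fun i => (a i : ℝ) / ((N * m : ℕ) : ℝ)) ∈ lat o (N * m) := ⟨a, rfl⟩
  refine ⟨_, per_of_fin f.injective (lat_fin o (Nat.mul_pos hN hm0))
    (lat_map hf ho m hm0) hmem, ?_⟩
  set w : Fin d → ℝ := o + fun i => (a i : ℝ) / ((N * m : ℕ) : ℝ) with hw
  have e1 : toTorus z = toTorus (z - w) + toTorus w := by rw [← tt_add, sub_add_cancel]
  rw [dist_eq_norm]
  have e2 : toTorus z - toTorus w = toTorus (z - w) := by rw [e1, add_sub_cancel_right]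
  rw [e2]
  refine (norm_tt_le _).trans_lt ?_
  have h5 : 1 / (m : ℝ) < ε := by
    rw [div_lt_iff₀ (by exact_mod_cast hm0)]
    rw [div_lt_iff₀ hε] at hm
    linarith
  have hNm : (m : ℝ) ≤ ((N * m : ℕ) : ℝ) := by
    have : m ≤ N * m := Nat.le_mul_of_pos_left m hN
    exact_mod_cast this
  have hm0' : (0 : ℝ) < m := by exact_mod_cast hm0
  refine lt_of_le_of_lt ?_ h5
  rw [pi_norm_le_iff_of_nonneg (by positivity)]
  intro i
  have h6 : (z - w) i = ((z i - o i) * ((N * m : ℕ) : ℝ) - a i) / ((N * m : ℕ) : ℝ) := by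
    rw [hw]
    simp only [Pi.sub_apply, Pi.add_apply]
    field_simp
    ring
  rw [h6, Real.norm_eq_abs, abs_div, abs_of_pos hM]
  have h7 : |(z i - o i) * ((N * m : ℕ) : ℝ) - a i| ≤ 1 / 2 := abs_sub_round _
  calc |(z i - o i) * ((N * m : ℕ) : ℝ) - a i| / ((N * m : ℕ) : ℝ)
      ≤ (1 / 2) / ((N * m : ℕ) : ℝ) := div_le_div_of_nonneg_right h7 hM.le
    _ ≤ 1 / ((N * m : ℕ) : ℝ) := div_le_div_of_nonneg_right (by norm_num) hM.le
    _ ≤ 1 / (m : ℝ) := one_div_le_one_div_of_le hm0' hNm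

theorem omega_univ_of_dense {X : Type*} [TopologicalSpace X] {f : X ≃ₜ X}
    (h : ∀ x, x ∈ closure (Per f)) : ∀ x, x ∈ Omega f := by
  intro x U hU
  obtain ⟨y, hyU, n, hn, hy⟩ := mem_closure_iff_nhds.1 (h x) U hU
  exact ⟨n, hn, y, ⟨y, hyU, hy⟩, hyU⟩

end Pool.Agent.H576R3.AF
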