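import Pool.Agent.H576R3.AF.Aff

/-!
# Hyperbolic affine diffeomorphisms of tori satisfy Axiom A and have no cycles
-/

set_option autoImplicit false

open Set Filter Topology

namespace Pool.Agent.H576R3.AF

open Pool.Agent.H728R2.OS Pool.Agent.H637R2.TD

variable {d : ℕ}

/-- the continuous linear map of a matrix -/
noncomputable def mc (M : Matrix (Fin d) (Fin d) ℝ) : (Fin d → ℝ) →L[ℝ] (Fin d → ℝ) :=
  LinearMap.toContinuousLinearMap (Matrix.mulVecLin M)

theorem mc_apply (M : Matrix (Fin d) (Fin d) ℝ) (v : Fin d → ℝ) : mc M v = M.mulVec v := rfl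

theorem iter_deriv (M : Matrix (Fin d) (Fin d) ℝ) (F : (Fin d → ℝ) → (Fin d → ℝ))
    (hF : ∀ z, HasFDerivAt F (mc M) z) (m : ℕ) (z : Fin d → ℝ) :
    HasFDerivAt (F^[m]) (mc (M ^ m)) z := by
  induction m generalizing z with
  | zero =>
    have e : mc (M ^ 0) = ContinuousLinearMap.id ℝ (Fin d → ℝ) := by
      ext v i
      simp [mc_apply]
    rw [e]
    exact hasFDerivAt_id z
  | succ m ih =>
    rw [Function.iterate_succ']
    have h := (hF (F^[m] z)).comp z (ih z)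
    have e : mc (M ^ (m + 1)) = (mc M).comp (mc (M ^ m)) := by
      ext1 v
      rw [ContinuousLinearMap.comp_apply, mc_apply, mc_apply, mc_apply, Matrix.mulVec_mulVec,
        pow_succ']
    rw [e]
    exact h

theorem aff_hyperbolic {A : Matrix (Fin d) (Fin d) ℤ} (hA : IsUnit A.det) {b : Fin d → ℝ}
    {f : Torus d ≃ₜ Torus d} (hf : HasAff A b f)
    (hyp : ∀ μ : ℂ, ‖μ‖ = 1 → ¬ (BC (A.map (Int.cast : ℤ → ℝ))).HasEigenvalue μ)
    (S : Set (Torus d)) : IsHyperbolic toTorus f S := by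
  set B := A.map (Int.cast : ℤ → ℝ) with hB
  obtain ⟨P, c, μ, hc, hμ0, hμ1, hPP, hPA, hb⟩ := splitting (det_real hA) hyp
  have hFd : ∀ z, HasFDerivAt (fun z : Fin d → ℝ => B.mulVec z + b) (mc B) z := fun z =>
    ((mc B).hasFDerivAt).add_const b
  have hGd : ∀ z, HasFDerivAt (fun z : Fin d → ℝ => B⁻¹.mulVec (z - b)) (mc B⁻¹) z := fun z => by
    have h1 : HasFDerivAt (fun z : Fin d → ℝ => z - b) (ContinuousLinearMap.id ℝ (Fin d → ℝ)) z :=
      (hasFDerivAt_id z).sub_const b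
    exact ((mc B⁻¹).hasFDerivAt).comp z h1
  refine ⟨fun z => B.mulVec z + b, fun z => B⁻¹.mulVec (z - b), ?_, ?_, fun z => (hf z).symm,
    fun z => ?_, fun _ => P, c, μ, hc, hμ0, hμ1, continuousOn_const, fun _ _ => ?_,
    fun z _ => ?_, fun m z _ v => ⟨?_, ?_⟩⟩
  · exact (mc B).contDiff.add contDiff_const
  · exact (mc B⁻¹).contDiff.comp (contDiff_id.sub contDiff_const)
  · apply f.injective
    rw [f.apply_symm_apply, hf, Matrix.mulVec_mulVec, Matrix.mul_nonsing_inv _ (det_real hA),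
      Matrix.one_mulVec, sub_add_cancel]
  · ext1 v
    exact hPP v
  · rw [(hFd z).fderiv]
    ext1 v
    exact hPA v
  · rw [(iter_deriv B _ hFd m z).fderiv]
    exact (hb m v).1
  · rw [(iter_deriv B⁻¹ _ hGd m z).fderiv]
    exact (hb m v).2

theorem aff_chainHyp {A : Matrix (Fin d) (Fin d) ℤ} (hA : IsUnit A.det) {b : Fin d → ℝ}
    {f : Torus d ≃ₜ Torus d} (hf : HasAff A b f)
    (hyp : ∀ μ : ℂ, ‖μ‖ = 1 → ¬ (BC (A.map (Int.cast : ℤ → ℝ))).HasEigenvalue μ) :
    ChainHyp toTorus f ∧ AxiomA toTorus f ∧ NoCycle f := by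
  set B := A.map (Int.cast : ℤ → ℝ) with hB
  have hdet : IsUnit (1 - B).det := by
    rw [isUnit_iff_ne_zero]
    intro h
    obtain ⟨v, hv, hv2⟩ := Matrix.exists_mulVec_eq_zero_iff.2 h
    apply hyp 1 (by simp)
    refine Module.End.hasEigenvalue_of_hasEigenvector (x := cx v)
      ⟨Module.End.mem_eigenspace_iff.2 ?_, fun h0 => hv ?_⟩
    · rw [BC_cx, one_smul]
      rw [Matrix.sub_mulVec, Matrix.one_mulVec, sub_eq_zero] at hv2
      rw [← hv2]
    · funext i
      exact Complex.ofReal_eq_zero.mp (congrFun h0 i)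
  set o : Fin d → ℝ := (1 - B)⁻¹.mulVec b with ho
  have h1 : (1 - B).mulVec o = b := by
    rw [ho, Matrix.mulVec_mulVec, Matrix.mul_nonsing_inv _ hdet, Matrix.one_mulVec]
  have h2 : B.mulVec o + b = o + fun i => (((0 : Fin d → ℤ) i : ℤ) : ℝ) / ((1 : ℕ) : ℝ) := by
    rw [Matrix.sub_mulVec, Matrix.one_mulVec] at h1
    rw [← h1]
    funext i
    simp
  have hd := per_dense hf (N := 1) one_pos (β := 0) h2
  have hO := omega_univ_of_dense hd
  refine ⟨⟨aff_hyperbolic hA hf hyp _, fun x _ => hd x⟩, ⟨aff_hyperbolic hA hf hyp _,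
    fun x _ => hd x⟩, noCycle_of_chainRec f fun x _ => hO x⟩

end Pool.Agent.H576R3.AF
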