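import Mathlib

/-!
# Linear algebra for affine diffeomorphisms of tori
-/

set_option autoImplicit false

open Set Filter Topology

namespace Pool.Agent.H576R3.AF

variable {d : ℕ}

/-- complexification of a real vector -/
noncomputable def cx (x : Fin d → ℝ) : Fin d → ℂ := fun i => (x i : ℂ)

/-- real part of a complex vector -/
noncomputable def re (z : Fin d → ℂ) : Fin d → ℝ := fun i => (z i).re

/-- the complex linear map of a real matrix -/
noncomputable def BC (A : Matrix (Fin d) (Fin d) ℝ) : Module.End ℂ (Fin d → ℂ) :=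
  Matrix.mulVecLin (A.map Complex.ofReal)

theorem BC_apply (A : Matrix (Fin d) (Fin d) ℝ) (z : Fin d → ℂ) (i : Fin d) :
    BC A z i = ∑ j, (A i j : ℂ) * z j := rfl

theorem BC_cx (A : Matrix (Fin d) (Fin d) ℝ) (x : Fin d → ℝ) :
    BC A (cx x) = cx (A.mulVec x) := by
  funext i
  rw [BC_apply]
  show ∑ j, (A i j : ℂ) * ((x j : ℝ) : ℂ) = ((∑ j, A i j * x j : ℝ) : ℂ)
  push_cast
  rfl

theorem re_BC (A : Matrix (Fin d) (Fin d) ℝ) (z : Fin d → ℂ) :
    re (BC A z) = A.mulVec (re z) := by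
  funext i
  show (BC A z i).re = ∑ j, A i j * (z j).re
  rw [BC_apply, Complex.re_sum]
  simp

theorem norm_cx (x : Fin d → ℝ) : ‖cx x‖ = ‖x‖ := by
  apply le_antisymm
  · rw [pi_norm_le_iff_of_nonneg (norm_nonneg _)]
    intro i
    show ‖((x i : ℝ) : ℂ)‖ ≤ ‖x‖
    rw [Complex.norm_real]
    exact norm_le_pi_norm x i
  · rw [pi_norm_le_iff_of_nonneg (norm_nonneg _)]
    intro i
    have h := norm_le_pi_norm (cx x) i
    have e : ‖cx x i‖ = ‖x i‖ := Complex.norm_real _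
    rwa [e] at h

theorem norm_re (z : Fin d → ℂ) : ‖re z‖ ≤ ‖z‖ := by
  rw [pi_norm_le_iff_of_nonneg (norm_nonneg _)]
  intro i
  show ‖(z i).re‖ ≤ ‖z‖
  exact (Complex.abs_re_le_norm _).trans (norm_le_pi_norm z i)

/-- vectors with a bounded two-sided orbit -/
def bddSub (B : Module.End ℂ (Fin d → ℂ)) : Submodule ℂ (Fin d → ℂ) where
  carrier := {z | ∃ (M : ℝ) (w : ℤ → Fin d → ℂ), w 0 = z ∧ ∀ n, w (n + 1) = B (w n) ∧ ‖w n‖ ≤ M}
  add_mem' := by
    rintro z z' ⟨M, w, h0, h⟩ ⟨M', w', h0', h'⟩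
    refine ⟨M + M', fun n => w n + w' n, by show w 0 + w' 0 = z + z'; rw [h0, h0'], fun n => ⟨?_, ?_⟩⟩
    · show w (n + 1) + w' (n + 1) = B (w n + w' n)
      rw [map_add, (h n).1, (h' n).1]
    · exact (norm_add_le _ _).trans (add_le_add (h n).2 (h' n).2)
  zero_mem' := ⟨0, fun _ => 0, rfl, fun n => by simp⟩
  smul_mem' := by
    rintro c z ⟨M, w, h0, h⟩
    refine ⟨‖c‖ * M, fun n => c • w n, by show c • w 0 = c • z; rw [h0], fun n => ⟨?_, ?_⟩⟩
    · show c • w (n + 1) = B (c • w n)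
      rw [map_smul, (h n).1]
    · rw [norm_smul]
      exact mul_le_mul_of_nonneg_left (h n).2 (norm_nonneg _)

theorem bddSub_inv (B : Module.End ℂ (Fin d → ℂ)) : ∀ z ∈ bddSub B, B z ∈ bddSub B := by
  rintro z ⟨M, w, h0, h⟩
  refine ⟨M, fun n => w (n + 1), ?_, fun n => ⟨(h (n + 1)).1, (h (n + 1)).2⟩⟩
  show w (0 + 1) = B z
  rw [(h 0).1, h0]

theorem eig_of_bdd (B : Module.End ℂ (Fin d → ℂ)) (hB : Function.Injective B)
    (w : ℤ → Fin d → ℂ) (M : ℝ) (h1 : ∀ n, w (n + 1) = B (w n)) (h2 : ∀ n, ‖w n‖ ≤ M)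
    (h0 : w 0 ≠ 0) : ∃ μ : ℂ, ‖μ‖ = 1 ∧ B.HasEigenvalue μ := by
  have hw : w 0 ∈ bddSub B := ⟨M, w, rfl, fun n => ⟨h1 n, h2 n⟩⟩
  have : Nontrivial (bddSub B) :=
    ⟨⟨⟨w 0, hw⟩, 0, fun h => h0 (congrArg Subtype.val h)⟩⟩
  obtain ⟨μ, hμ⟩ := Module.End.exists_eigenvalue (B.restrict (bddSub_inv B))
  obtain ⟨z, hz⟩ := hμ.exists_hasEigenvector
  have hz0 : (z : Fin d → ℂ) ≠ 0 := fun h => hz.2 (Subtype.ext h)
  have hz1 : B (z : Fin d → ℂ) = μ • (z : Fin d → ℂ) := by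
    have h4 := hz.apply_eq_smul
    exact congrArg Subtype.val h4
  obtain ⟨M', u, hu0, hu⟩ := z.2
  have hzn : 0 < ‖(z : Fin d → ℂ)‖ := norm_pos_iff.mpr hz0
  have hμ0 : μ ≠ 0 := by
    intro h
    apply hz0
    apply hB
    rw [hz1, h, zero_smul, map_zero]
  have hpos : ∀ n : ℕ, u n = μ ^ n • (z : Fin d → ℂ) := by
    intro n
    induction n with
    | zero => simpa using hu0
    | succ n ih =>
      push_cast
      rw [(hu n).1, ih, map_smul, hz1, smul_smul, pow_succ]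
  have hneg : ∀ n : ℕ, u (-(n : ℤ)) = (μ ^ n)⁻¹ • (z : Fin d → ℂ) := by
    intro n
    induction n with
    | zero => simpa using hu0
    | succ n ih =>
      apply hB
      have e : -((n + 1 : ℕ) : ℤ) + 1 = -(n : ℤ) := by push_cast; ring
      rw [← (hu _).1, e, ih, map_smul, hz1, smul_smul]
      congr 1
      rw [pow_succ]
      field_simp
  refine ⟨μ, le_antisymm ?_ ?_, ?_⟩
  · by_contra hc
    push Not at hc
    have ht := (tendsto_pow_atTop_atTop_of_one_lt hc).eventually (eventually_gt_atTop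
      (M' / ‖(z : Fin d → ℂ)‖))
    obtain ⟨n, hn⟩ := ht.exists
    rw [div_lt_iff₀ hzn] at hn
    have h5 := (hu n).2
    rw [hpos, norm_smul, norm_pow] at h5
    linarith
  · by_contra hc
    push Not at hc
    have hinv : 1 < ‖μ‖⁻¹ := (one_lt_inv₀ (norm_pos_iff.2 hμ0)).2 hc
    have ht := (tendsto_pow_atTop_atTop_of_one_lt hinv).eventually (eventually_gt_atTop
      (M' / ‖(z : Fin d → ℂ)‖))
    obtain ⟨n, hn⟩ := ht.exists
    rw [div_lt_iff₀ hzn] at hn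
    have h5 := (hu (-(n : ℤ))).2
    rw [hneg, norm_smul, norm_inv, norm_pow, ← inv_pow] at h5
    linarith
  · exact Module.End.hasEigenvalue_of_hasEigenvector
      (x := (z : Fin d → ℂ)) ⟨Module.End.mem_eigenspace_iff.2 hz1, hz0⟩

theorem BC_inj {A : Matrix (Fin d) (Fin d) ℝ} (hA : IsUnit A.det) :
    Function.Injective (BC A) := by
  have h1 : IsUnit (A.map Complex.ofReal).det := by
    have h2 := RingHom.map_det Complex.ofRealHom A
    have e : Complex.ofRealHom.mapMatrix A = A.map Complex.ofReal := rfl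
    rw [e] at h2
    rw [← h2]
    exact hA.map Complex.ofRealHom
  have h3 : IsUnit (A.map Complex.ofReal) := (Matrix.isUnit_iff_isUnit_det _).mpr h1
  exact Matrix.mulVec_injective_of_isUnit h3

/-- A real matrix without eigenvalues of modulus one has no bounded two-sided orbits. -/
theorem zero_of_bdd {A : Matrix (Fin d) (Fin d) ℝ} (hA : IsUnit A.det)
    (hyp : ∀ μ : ℂ, ‖μ‖ = 1 → ¬ (BC A).HasEigenvalue μ)
    (w : ℤ → Fin d → ℝ) (M : ℝ) (h1 : ∀ n, w (n + 1) = A.mulVec (w n)) (h2 : ∀ n, ‖w n‖ ≤ M) :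
    w 0 = 0 := by
  by_contra h0
  obtain ⟨μ, hμ, hμ'⟩ := eig_of_bdd (BC A) (BC_inj hA) (fun n => cx (w n)) M
    (fun n => by rw [BC_cx, h1]) (fun n => by rw [norm_cx]; exact h2 n) (fun h => by
      apply h0
      funext i
      exact Complex.ofReal_eq_zero.mp (congrFun h i))
  exact hyp μ hμ hμ'

/-- An eigenvalue of modulus one gives small nonzero bounded two-sided orbits. -/
theorem exists_bdd {A : Matrix (Fin d) (Fin d) ℝ} {μ : ℂ} (hμ : ‖μ‖ = 1)
    (hA : (BC A).HasEigenvalue μ) (δ : ℝ) (hδ : 0 < δ) :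
    ∃ w : ℤ → Fin d → ℝ, (∀ n, w (n + 1) = A.mulVec (w n)) ∧ (∀ n, ‖w n‖ ≤ δ) ∧ w 0 ≠ 0 := by
  obtain ⟨z, hz⟩ := hA.exists_hasEigenvector
  have hz0 : z ≠ 0 := hz.2
  have hz1 : BC A z = μ • z := hz.apply_eq_smul
  have hμ0 : μ ≠ 0 := by
    intro h; rw [h] at hμ; simp at hμ
  have hzn : 0 < ‖z‖ := norm_pos_iff.2 hz0
  obtain ⟨c, hc1, hc2⟩ : ∃ c : ℂ, ‖c‖ = 1 ∧ re (c • z) ≠ 0 := by
    by_contra hcon
    push Not at hcon
    have h1 := hcon 1 (by simp)
    have h2 := hcon Complex.I (by simp)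
    apply hz0
    funext i
    have e1 : (((1 : ℂ) • z) i).re = 0 := congrFun h1 i
    have e2 : ((Complex.I • z) i).re = 0 := congrFun h2 i
    simp only [one_smul] at e1
    simp only [Pi.smul_apply, smul_eq_mul, Complex.mul_re, Complex.I_re, Complex.I_im] at e2
    apply Complex.ext
    · simpa using e1
    · simp at e2
      simpa using e2
  set t : ℝ := δ / ‖z‖ with ht
  have ht0 : 0 < t := by positivity
  refine ⟨fun n => re (((t : ℂ) * c * μ ^ n) • z), fun n => ?_, fun n => ?_, ?_⟩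
  · show re (((t : ℂ) * c * μ ^ (n + 1)) • z) = A.mulVec (re (((t : ℂ) * c * μ ^ n) • z))
    rw [← re_BC, map_smul, hz1, smul_smul, zpow_add_one₀ hμ0]
    congr 2
    ring
  · refine (norm_re _).trans ?_
    rw [norm_smul, norm_mul, norm_mul, norm_zpow, hμ, hc1, one_zpow, Complex.norm_real,
      Real.norm_eq_abs, abs_of_pos ht0, ht]
    have : δ / ‖z‖ * 1 * 1 * ‖z‖ = δ := by field_simp
    rw [this]
  · intro h
    apply hc2
    funext i
    have e1 : re (((t : ℂ) * c * μ ^ (0 : ℤ)) • z) i = 0 := congrFun h i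
    have e2 : (((t : ℂ) * c * μ ^ (0 : ℤ)) • z) i = (t : ℂ) * ((c • z) i) := by
      simp [mul_assoc]
    have e3 : re (((t : ℂ) * c * μ ^ (0 : ℤ)) • z) i = t * ((c • z) i).re := by
      show ((((t : ℂ) * c * μ ^ (0 : ℤ)) • z) i).re = _
      rw [e2, Complex.re_ofReal_mul]
    rw [e3] at e1
    have e4 : t * ((c • z) i).re = 0 := e1
    have := (mul_eq_zero.1 e4).resolve_left ht0.ne'
    exact this

/-- Scaling: for small `ε > 0` outside of a finite set `(1 + ε) A` has no eigenvalue of modulus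
one. -/
theorem exists_scale (A : Matrix (Fin d) (Fin d) ℝ) (η : ℝ) (hη : 0 < η) :
    ∃ ε : ℝ, 0 < ε ∧ ε < η ∧
      ∀ μ : ℂ, ‖μ‖ = 1 → ¬ (BC ((1 + ε) • A)).HasEigenvalue μ := by
  have hfin : {μ : ℂ | (BC A).HasEigenvalue μ}.Finite := by
    have h := Module.End.finite_hasEigenvalue (BC A)
    exact h
  have hfin2 : ((fun μ : ℂ => ‖μ‖) '' {μ : ℂ | (BC A).HasEigenvalue μ}).Finite := hfin.image _
  have hfin3 : {ε : ℝ | 0 < ε ∧ (1 + ε)⁻¹ ∈ (fun μ : ℂ => ‖μ‖) ''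
      {μ : ℂ | (BC A).HasEigenvalue μ}}.Finite := by
    have hsub : (fun ε : ℝ => (1 + ε)⁻¹) '' {ε : ℝ | 0 < ε ∧ (1 + ε)⁻¹ ∈ (fun μ : ℂ => ‖μ‖) ''
      {μ : ℂ | (BC A).HasEigenvalue μ}} ⊆ (fun μ : ℂ => ‖μ‖) ''
      {μ : ℂ | (BC A).HasEigenvalue μ} := by
      rintro _ ⟨ε, hε, rfl⟩
      exact hε.2
    refine Set.Finite.of_finite_image (hfin2.subset hsub) ?_
    intro a ha b hb hab
    have := inv_injective hab
    linarith
  have hinf : (Ioo (0 : ℝ) η).Infinite := Ioo_infinite hη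
  obtain ⟨ε, hε1, hε2⟩ := (hinf.sdiff hfin3).nonempty
  refine ⟨ε, hε1.1, hε1.2, fun μ hμ hev => hε2 ⟨hε1.1, ?_⟩⟩
  have h1 : (0 : ℝ) < 1 + ε := by linarith [hε1.1]
  obtain ⟨z, hz⟩ := hev.exists_hasEigenvector
  have hz1 := hz.apply_eq_smul
  have h2 : BC ((1 + ε) • A) z = ((1 + ε : ℝ) : ℂ) • BC A z := by
    funext i
    rw [BC_apply, Pi.smul_apply, BC_apply, smul_eq_mul, Finset.mul_sum]
    apply Finset.sum_congr rfl
    intro j _
    rw [Matrix.smul_apply, smul_eq_mul]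
    push_cast
    ring
  rw [h2] at hz1
  have h3 : ((1 + ε : ℝ) : ℂ) ≠ 0 := by exact_mod_cast h1.ne'
  refine ⟨((1 + ε : ℝ) : ℂ)⁻¹ * μ, ?_, ?_⟩
  · refine Module.End.hasEigenvalue_of_hasEigenvector (x := z)
      ⟨Module.End.mem_eigenspace_iff.2 ?_, hz.2⟩
    rw [← smul_smul, ← hz1, smul_smul, inv_mul_cancel₀ h3, one_smul]
  · show ‖((1 + ε : ℝ) : ℂ)⁻¹ * μ‖ = (1 + ε)⁻¹
    rw [norm_mul, hμ, mul_one, norm_inv, Complex.norm_real, Real.norm_eq_abs, abs_of_pos h1]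

end Pool.Agent.H576R3.AF
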