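import Pool.Agent.H576R3.AF.Hyp

/-!
# Omega-stable affine diffeomorphisms of tori are hyperbolic
-/

set_option autoImplicit false

open Set Filter Topology

namespace Pool.Agent.H576R3.AF

open Pool.Agent.H728R2.OS Pool.Agent.H637R2.TD

variable {d : ℕ}

theorem omega_map {X : Type*} [TopologicalSpace X] (f : X ≃ₜ X) {x : X} (hx : x ∈ Omega f) :
    f x ∈ Omega f := by
  intro U hU
  have hU' : f ⁻¹' U ∈ 𝓝 x := f.continuous.continuousAt.preimage_mem_nhds hU
  obtain ⟨n, hn, y, ⟨u, hu, huy⟩, hy⟩ := hx _ hU'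
  refine ⟨n, hn, f y, ⟨f u, hu, ?_⟩, hy⟩
  rw [← huy, ← Function.iterate_succ_apply, Function.iterate_succ_apply']

/-- from two conjugacies with the same `f` -/
theorem conj_of_two {X : Type*} [TopologicalSpace X] {f g₀ g : X ≃ₜ X}
    (h₀ : OmegaConj f g₀) (h₁ : OmegaConj f g) (hO : ∀ x, x ∈ Omega g₀) :
    ∃ φ : X → X, Continuous φ ∧ Function.Injective φ ∧ (∀ x, φ (g₀ x) = g (φ x)) ∧
      ∀ y ∈ Omega g, ∃ x, φ x = y := by
  obtain ⟨k₀, hk₀⟩ := h₀
  obtain ⟨k₁, hk₁⟩ := h₁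
  refine ⟨fun x => (k₁ (k₀.symm ⟨x, hO x⟩) : X), ?_, ?_, ?_, ?_⟩
  · exact continuous_subtype_val.comp (k₁.continuous.comp (k₀.symm.continuous.comp
      (continuous_id.subtype_mk _)))
  · intro x y hxy
    have h1 : k₁ (k₀.symm ⟨x, hO x⟩) = k₁ (k₀.symm ⟨y, hO y⟩) := Subtype.ext hxy
    have h2 := k₀.symm.injective (k₁.injective h1)
    exact congrArg Subtype.val h2
  · intro x
    set a := k₀.symm ⟨x, hO x⟩ with ha
    have ha' : (k₀ a : X) = x := by rw [ha, k₀.apply_symm_apply]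
    set b : Omega f := ⟨f a, omega_map f a.2⟩ with hb
    have h1 : (k₀ b : X) = g₀ (k₀ a) := hk₀ a b rfl
    have h2 : k₀.symm ⟨g₀ x, hO (g₀ x)⟩ = b := by
      rw [Homeomorph.symm_apply_eq]
      apply Subtype.ext
      rw [h1, ha']
    show (k₁ (k₀.symm ⟨g₀ x, hO (g₀ x)⟩) : X) = g (k₁ a)
    rw [h2]
    exact hk₁ a b rfl
  · intro y hy
    refine ⟨(k₀ (k₁.symm ⟨y, hy⟩) : X), ?_⟩
    have h1 : k₀.symm ⟨(k₀ (k₁.symm ⟨y, hy⟩) : X), hO _⟩ = k₁.symm ⟨y, hy⟩ := by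
      rw [Homeomorph.symm_apply_eq]
    show (k₁ (k₀.symm ⟨(k₀ (k₁.symm ⟨y, hy⟩) : X), hO _⟩) : X) = y
    rw [h1, k₁.apply_symm_apply]

theorem perm_inv {X : Type*} (g : Equiv.Perm X) (x : X) : g (g⁻¹ x) = x := g.apply_symm_apply x

theorem tt_zero : toTorus (0 : Fin d → ℝ) = 0 := by
  funext i
  exact (AddCircle.coe_eq_zero_iff (1 : ℝ)).2 ⟨0, by simp⟩

theorem zpow_conj {X : Type*} {g₀ g : Equiv.Perm X} {φ : X → X}
    (h : ∀ x, φ (g₀ x) = g (φ x)) (n : ℤ) (x : X) : φ ((g₀ ^ n) x) = (g ^ n) (φ x) := by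
  have hinv : ∀ x, φ (g₀⁻¹ x) = g⁻¹ (φ x) := by
    intro x
    apply g.injective
    rw [← h, perm_inv, perm_inv]
  induction n using Int.induction_on generalizing x with
  | zero => rfl
  | succ n ih => rw [zpow_add_one, zpow_add_one, Equiv.Perm.mul_apply, Equiv.Perm.mul_apply, ih, h]
  | pred n ih =>
    rw [zpow_sub_one, zpow_sub_one, Equiv.Perm.mul_apply, Equiv.Perm.mul_apply, ih, hinv]

theorem zpow_mem {X : Type*} {g : Equiv.Perm X} {Q : Set X} (hQ : Q.Finite)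
    (hm : ∀ x ∈ Q, g x ∈ Q) (n : ℤ) {x : X} (hx : x ∈ Q) : (g ^ n) x ∈ Q := by
  have hinv : ∀ x ∈ Q, g⁻¹ x ∈ Q := by
    intro x hx
    obtain ⟨n, hn, hn'⟩ := per_of_fin g.injective hQ hm hx
    have hit : ∀ n : ℕ, g^[n] x ∈ Q := by
      intro n
      induction n with
      | zero => exact hx
      | succ n ih => rw [Function.iterate_succ_apply']; exact hm _ ih
    have e : g⁻¹ x = g^[n - 1] x := by
      apply g.injective
      rw [perm_inv, ← Function.iterate_succ_apply' (f := g),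
        show (n - 1).succ = n by omega, hn']
    rw [e]
    exact hit _
  induction n using Int.induction_on generalizing x with
  | zero => exact hx
  | succ n ih => rw [zpow_add_one, Equiv.Perm.mul_apply]; exact ih (hm _ hx)
  | pred n ih => rw [zpow_sub_one, Equiv.Perm.mul_apply]; exact ih (hinv _ hx)

/-- The core: the perturbed map `g` and the affine map `g₀` are not conjugate. -/
theorem core {A : Matrix (Fin d) (Fin d) ℤ} (hA : IsUnit A.det) {b' : Fin d → ℝ}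
    {g₀ g : Torus d ≃ₜ Torus d} (hg₀ : HasAff A b' g₀) {N : ℕ} (hN : 0 < N) {β : Fin d → ℤ}
    {e : ℝ} (he0 : 0 < e) (he1 : e ≤ 1)
    (hgl : ∀ (a : Fin d → ℤ) (v : Fin d → ℝ),
      (∀ i, |(A.map (Int.cast : ℤ → ℝ)).mulVec v i| ≤ 1 / (8 * N)) →
      g (toTorus ((fun i => (a i : ℝ) / N) + v)) =
        toTorus ((fun i => ((A.mulVec a i + β i : ℤ) : ℝ) / N) +
          ((1 + e) • A.map (Int.cast : ℤ → ℝ)).mulVec v))
    (hyp : ∀ μ : ℂ, ‖μ‖ = 1 → ¬ (BC ((1 + e) • A.map (Int.cast : ℤ → ℝ))).HasEigenvalue μ)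
    {φ : Torus d → Torus d} (hφ : Continuous φ) (hφi : Function.Injective φ)
    (hφe : ∀ x, φ (g₀ x) = g (φ x)) (hφs : ∀ y ∈ Omega g, ∃ x, φ x = y)
    {μ : ℂ} (hμ : ‖μ‖ = 1) (hev : (BC (A.map (Int.cast : ℤ → ℝ))).HasEigenvalue μ) : False := by
  set B := A.map (Int.cast : ℤ → ℝ) with hB
  have hN' : (0 : ℝ) < N := by exact_mod_cast hN
  set Q : Set (Torus d) := lat 0 N with hQ
  have hQfin : Q.Finite := lat_fin 0 hN
  have hQmem : ∀ x ∈ Q, ∃ a : Fin d → ℤ, x = toTorus (fun i => (a i : ℝ) / N) := by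
    rintro _ ⟨a, rfl⟩
    exact ⟨a, congrArg toTorus (zero_add _)⟩
  have hQmem' : ∀ a : Fin d → ℤ, toTorus (fun i => (a i : ℝ) / N) ∈ Q := fun a =>
    ⟨a, congrArg toTorus (zero_add _)⟩
  have hg0lat : ∀ a : Fin d → ℤ, g (toTorus (fun i => (a i : ℝ) / N)) =
      toTorus (fun i => ((A.mulVec a i + β i : ℤ) : ℝ) / N) := by
    intro a
    have h := hgl a 0 (fun i => by
      rw [Matrix.mulVec_zero]
      simp only [Pi.zero_apply, abs_zero]
      positivity)
    rw [Matrix.mulVec_zero, add_zero, add_zero] at h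
    exact h
  have hQm : ∀ x ∈ Q, g x ∈ Q := by
    intro x hx
    obtain ⟨a, rfl⟩ := hQmem x hx
    rw [hg0lat]
    exact hQmem' _
  set p : Torus d := toTorus (fun i => (((0 : Fin d → ℤ) i : ℤ) : ℝ) / N) with hp
  have hpQ : p ∈ Q := hQmem' 0
  have hpO : p ∈ Omega g := by
    obtain ⟨n, hn, hn'⟩ := per_of_fin g.injective hQfin hQm hpQ
    intro U hU
    exact ⟨n, hn, p, ⟨p, mem_of_mem_nhds hU, hn'⟩, mem_of_mem_nhds hU⟩
  obtain ⟨q, hq⟩ := hφs p hpO
  set G₀ : Equiv.Perm (Torus d) := g₀.toEquiv with hG₀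
  set G : Equiv.Perm (Torus d) := g.toEquiv with hG
  have hφe' : ∀ x, φ (G₀ x) = G (φ x) := hφe
  have hPQ : ∀ n : ℤ, φ ((G₀ ^ n) q) ∈ Q := by
    intro n
    rw [zpow_conj hφe', hq]
    exact zpow_mem hQfin hQm n hpQ
  have haff : ∀ (x : Torus d) (w : Fin d → ℝ), g₀ (x + toTorus w) =
      g₀ x + toTorus (B.mulVec w) := by
    intro x w
    obtain ⟨z, rfl⟩ := tt_surj x
    rw [← tt_add, hg₀, hg₀, Matrix.mulVec_add, ← tt_add]
    congr 1
    abel
  -- the operator bound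
  obtain ⟨L, hL0, hL⟩ : ∃ L : ℝ, 0 < L ∧ ∀ v : Fin d → ℝ, ‖B.mulVec v‖ ≤ L * ‖v‖ := by
    refine ⟨‖mc B‖ + 1, by positivity, fun v => ?_⟩
    have h1 := (mc B).le_opNorm v
    rw [mc_apply] at h1
    nlinarith [norm_nonneg v]
  set ρ : ℝ := min (1 / 4) (1 / (8 * N * L)) with hρ
  have hρ0 : 0 < ρ := lt_min (by norm_num) (by positivity)
  have huc := CompactSpace.uniformContinuous_of_continuous hφ
  rw [Metric.uniformContinuous_iff] at huc
  obtain ⟨δ, hδ, hδ'⟩ := huc ρ hρ0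
  obtain ⟨w, hw1, hw2, hw3⟩ := exists_bdd hμ hev (min (δ / 2) (1 / 4))
    (lt_min (by linarith) (by norm_num))
  set Qn : ℤ → Torus d := fun n => (G₀ ^ n) q with hQn
  set X : ℤ → Torus d := fun n => Qn n + toTorus (w n) with hX
  have hQs : ∀ n, Qn (n + 1) = g₀ (Qn n) := by
    intro n
    show (G₀ ^ (n + 1)) q = G₀ ((G₀ ^ n) q)
    rw [add_comm n 1, zpow_add, zpow_one, Equiv.Perm.mul_apply]
  have hXs : ∀ n, X (n + 1) = g₀ (X n) := by
    intro n
    show Qn (n + 1) + toTorus (w (n + 1)) = g₀ (Qn n + toTorus (w n))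
    rw [haff, hQs, hw1]
  have hclose : ∀ n, ‖φ (X n) - φ (Qn n)‖ < ρ := by
    intro n
    rw [← dist_eq_norm]
    apply hδ'
    rw [dist_eq_norm]
    have e1 : X n - Qn n = toTorus (w n) := by
      show Qn n + toTorus (w n) - Qn n = _
      abel
    rw [e1]
    refine (norm_tt_le _).trans_lt ((hw2 n).trans_lt ?_)
    exact (min_le_left _ _).trans_lt (by linarith)
  choose v hv1 hv2 using fun n => exists_rep (φ (X n) - φ (Qn n))
  have hvρ : ∀ n, ‖v n‖ < ρ := fun n => by rw [hv2]; exact hclose n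
  have hBv : ∀ n, ‖B.mulVec (v n)‖ ≤ 1 / (8 * N) := by
    intro n
    refine (hL _).trans ?_
    have h1 : ‖v n‖ ≤ 1 / (8 * N * L) := (hvρ n).le.trans (min_le_right _ _)
    calc L * ‖v n‖ ≤ L * (1 / (8 * N * L)) := mul_le_mul_of_nonneg_left h1 hL0.le
      _ = 1 / (8 * N) := by field_simp
  have hstep : ∀ n, v (n + 1) = ((1 + e) • B).mulVec (v n) := by
    intro n
    obtain ⟨a, ha⟩ := hQmem _ (hPQ n)
    have ha' : φ (Qn n) = toTorus (fun i => (a i : ℝ) / N) := ha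
    have h1 : φ (X n) = toTorus ((fun i => (a i : ℝ) / N) + v n) := by
      rw [tt_add, hv1, ← ha']
      abel
    have h2 : φ (X (n + 1)) = toTorus ((fun i => ((A.mulVec a i + β i : ℤ) : ℝ) / N) +
        ((1 + e) • B).mulVec (v n)) := by
      rw [hXs, hφe, h1]
      apply hgl
      intro i
      exact (norm_le_pi_norm (B.mulVec (v n)) i).trans (hBv n)
    have h3 : φ (Qn (n + 1)) = toTorus (fun i => ((A.mulVec a i + β i : ℤ) : ℝ) / N) := by
      rw [hQs, hφe, ha', hg0lat]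
    apply tt_inj
    · refine (hvρ _).trans ((min_le_left _ _).trans_lt (by norm_num))
    · rw [Matrix.smul_mulVec, norm_smul, Real.norm_eq_abs, abs_of_pos (by linarith)]
      have h4 := hBv n
      have h5 : (1 : ℝ) / (8 * N) ≤ 1 / 8 := by
        apply one_div_le_one_div_of_le (by norm_num)
        have : (1 : ℝ) ≤ N := by exact_mod_cast hN
        linarith
      nlinarith [norm_nonneg (B.mulVec (v n))]
    · rw [hv1, h2, h3, tt_add]
      abel
  have hdet : IsUnit ((1 + e) • B).det := by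
    rw [Matrix.det_smul]
    refine IsUnit.mul ?_ (det_real hA)
    rw [isUnit_iff_ne_zero]
    have : (0 : ℝ) < 1 + e := by linarith
    positivity
  have hv0 := zero_of_bdd hdet hyp v ρ hstep (fun n => (hvρ n).le)
  have h6 : φ (X 0) = φ (Qn 0) := by
    have h7 := hv1 0
    rw [hv0] at h7
    rw [tt_zero] at h7
    exact (sub_eq_zero.1 h7.symm)
  have h9 : X 0 = Qn 0 := hφi h6
  have h10 : toTorus (w 0) = toTorus (0 : Fin d → ℝ) := by
    rw [tt_zero]
    have h11 : Qn 0 + toTorus (w 0) = Qn 0 := h9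
    exact left_eq_add.1 h11.symm
  apply hw3
  apply tt_inj _ _ h10
  · exact (hw2 0).trans_lt ((min_le_right _ _).trans_lt (by norm_num))
  · rw [norm_zero]; norm_num

theorem small_shift {k : ℕ} {a : ℝ} {v : ℝ → ℝ} (h : Small k a v) (c : ℝ) :
    Small k a (fun y => v (y + c)) := by
  refine ⟨h.smooth.comp (contDiff_id.add contDiff_const), fun y => ?_, fun j hj y => ?_⟩
  · rw [show y + 1 + c = (y + c) + 1 by ring, h.per]
  · have e := congrFun (iteratedDeriv_comp_add_const j v c) y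
    rw [e]
    exact h.lt j hj _

theorem small_mono' {k k' : ℕ} {a a' : ℝ} {u : ℝ → ℝ} (h : Small k a u) (hk : k' ≤ k)
    (ha : a ≤ a') : Small k' a' u :=
  ⟨h.smooth, h.per, fun j hj y => (h.lt j (hj.trans hk) y).trans_le ha⟩

/-- An `Ω`-stable affine diffeomorphism of a torus has no eigenvalue of modulus one. -/
theorem no_unit {r : ℕ∞} {A : Matrix (Fin d) (Fin d) ℤ} (hA : IsUnit A.det) {b : Fin d → ℝ}
    {f : Torus d ≃ₜ Torus d} (hf : HasAff A b f) (hs : OmegaStable toTorus r f) :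
    ∀ μ : ℂ, ‖μ‖ = 1 → ¬ (BC (A.map (Int.cast : ℤ → ℝ))).HasEigenvalue μ := by
  intro μ hμ hev
  obtain ⟨k, hk, ε, hε, H⟩ := hs
  obtain ⟨η, hη, hcl⟩ := close_of_small f (aff_diffeo hA hf r) k hk ε hε
  set K : ℕ := max k 1 with hK
  set η' : ℝ := min η 1 with hη'
  have hη0 : 0 < η' := lt_min hη one_pos
  obtain ⟨N, hNgt⟩ := exists_nat_gt (1 / η')
  have hNr : (0 : ℝ) < N := lt_trans (by positivity) hNgt
  have hN : 0 < N := by exact_mod_cast hNr
  set β : Fin d → ℤ := fun i => round ((N : ℝ) * b i) with hβ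
  set c : Fin d → ℝ := fun i => (β i : ℝ) / N - b i with hc
  have hcs : ∀ i, |c i| < η' / 2 := by
    intro i
    have h1 : c i = -(((N : ℝ) * b i - β i) / N) := by
      rw [hc]
      field_simp
      ring
    have h2 : |(N : ℝ) * b i - β i| ≤ 1 / 2 := abs_sub_round _
    rw [h1, abs_neg, abs_div, abs_of_pos hNr, div_lt_iff₀ hNr]
    rw [div_lt_iff₀ hη0] at hNgt
    nlinarith
  obtain ⟨s0, hs0, hsm⟩ := SignAux.small_mul (k := K) (a := η' / 2) (by positivity) (sawN N)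
    (sawN_smooth N) (sawN_per N)
  obtain ⟨e, he0, he1, hyp⟩ := exists_scale (A.map (Int.cast : ℤ → ℝ)) (min s0 1)
    (lt_min hs0 one_pos)
  have hes : e ≤ s0 := he1.le.trans (min_le_left _ _)
  have hee : e ≤ 1 := he1.le.trans (min_le_right _ _)
  -- the two perturbations
  set u₀ : Fin d → ℝ → ℝ := fun i _ => c i with hu₀
  set u : Fin d → ℝ → ℝ := fun i y => e * sawN N (y + c i) + c i with hu
  have hS₀ : ∀ i, Small K η' (u₀ i) := fun i =>
    small_mono' (SignAux.small_const (hcs i)) le_rfl (by linarith)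
  have hS : ∀ i, Small K η' (u i) := fun i => by
    have h1 := small_shift (hsm e he0 hes) (c i)
    have h2 := SignAux.small_add h1 (SignAux.small_const (k := K) (hcs i))
    exact small_mono' h2 le_rfl (by linarith)
  have hK1 : 1 ≤ K := le_max_right _ _
  have hKk : k ≤ K := le_max_left _ _
  obtain ⟨Ψ₀, hΨ₀, hΨ₀'⟩ := exists_prod u₀ fun i =>
    small_mono' (hS₀ i) hK1 (min_le_right _ _)
  obtain ⟨Ψ, hΨ, hΨ'⟩ := exists_prod u fun i =>
    small_mono' (hS i) hK1 (min_le_right _ _)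
  have hdown : ∀ {Θ : Torus d ≃ₜ Torus d}, IsDiffeo toTorus ⊤ Θ → IsDiffeo toTorus r Θ := by
    rintro Θ ⟨⟨F, hF, hF'⟩, ⟨F1, hF1, hF1'⟩⟩
    exact ⟨⟨F, hF.of_le (by exact_mod_cast le_top), hF'⟩,
      ⟨F1, hF1.of_le (by exact_mod_cast le_top), hF1'⟩⟩
  have C₀ : OmegaConj f (f.trans Ψ₀) := H _
    (diffeo_comp (aff_diffeo hA hf r) (hdown hΨ₀'.diffeo))
    (hcl (fun z i => u₀ i (z i)) Ψ₀ (smallMap_pi k η hη u₀ fun i =>
      small_mono' (hS₀ i) hKk (min_le_left _ _)) hΨ₀)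
  have C₁ : OmegaConj f (f.trans Ψ) := H _
    (diffeo_comp (aff_diffeo hA hf r) (hdown hΨ'.diffeo))
    (hcl (fun z i => u i (z i)) Ψ (smallMap_pi k η hη u fun i =>
      small_mono' (hS i) hKk (min_le_left _ _)) hΨ)
  have hg₀ : HasAff A (b + c) (f.trans Ψ₀) := by
    intro z
    show Ψ₀ (f (toTorus z)) = _
    rw [hf, ← hΨ₀, ← add_assoc]
    rfl
  have hbc : b + c = fun i => (β i : ℝ) / N := by
    funext i
    rw [hc]
    simp
  have hO : ∀ x, x ∈ Omega (f.trans Ψ₀) := by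
    refine omega_univ_of_dense (per_dense hg₀ (o := 0) hN (β := β) ?_)
    rw [Matrix.mulVec_zero, zero_add, zero_add, hbc]
  obtain ⟨φ, h1, h2, h3, h4⟩ := conj_of_two C₀ C₁ hO
  refine core hA hg₀ hN (β := β) he0 hee ?_ hyp h1 h2 h3 h4 hμ hev
  intro a v hv
  show Ψ (f (toTorus _)) = _
  rw [hf, ← hΨ]
  congr 1
  funext i
  have e1 : (A.map (Int.cast : ℤ → ℝ)).mulVec (fun i => (a i : ℝ) / N) i =
      ((A.mulVec a i : ℤ) : ℝ) / N := by
    have e2 : (fun i => (a i : ℝ) / (N : ℝ)) = ((N : ℝ)⁻¹) • fun i => (a i : ℝ) := by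
      funext i; simp [div_eq_inv_mul]
    rw [e2, Matrix.mulVec_smul, mulVec_int]
    simp [div_eq_inv_mul]
  set y : ℝ := ((A.map (Int.cast : ℤ → ℝ)).mulVec ((fun i => (a i : ℝ) / N) + v) + b) i with hy
  have hyc : y + c i = ((A.mulVec a i + β i : ℤ) : ℝ) / N +
      (A.map (Int.cast : ℤ → ℝ)).mulVec v i := by
    rw [hy, Pi.add_apply, Matrix.mulVec_add, Pi.add_apply, e1]
    have h5 : b i + c i = (β i : ℝ) / N := congrFun hbc i
    push_cast
    rw [add_div, ← h5]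
    ring
  show y + (e * sawN N (y + c i) + c i) = _
  rw [hyc, sawN_lat hN _ _ (hv i)]
  have h6 : y = ((A.mulVec a i + β i : ℤ) : ℝ) / N +
      (A.map (Int.cast : ℤ → ℝ)).mulVec v i - c i := by linarith
  rw [h6, Pi.add_apply, Matrix.smul_mulVec, Pi.smul_apply, smul_eq_mul]
  ring

/-- The main theorem. -/
theorem main {r : ℕ∞} {A : Matrix (Fin d) (Fin d) ℤ} (hA : IsUnit A.det) {b : Torus d}
    {f : Torus d ≃ₜ Torus d} (hf : ∀ x i, f x i = ∑ j, A i j • x j + b i)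
    (hs : OmegaStable toTorus r f) :
    (∀ μ : ℂ, ‖μ‖ = 1 → ¬ (A.map (Int.castRingHom ℂ)).charpoly.IsRoot μ) ∧
      ChainHyp toTorus f ∧ AxiomA toTorus f ∧ NoCycle f := by
  obtain ⟨c, hc⟩ := tt_surj b
  have haff : HasAff A c f := by
    intro z
    funext i
    rw [hf, tt_add]
    show ∑ j, A i j • ((z j : ℝ) : UnitAddCircle) + b i =
      (((A.map (Int.cast : ℤ → ℝ)).mulVec z i : ℝ) : UnitAddCircle) + toTorus c i
    rw [hc]
    congr 1
    have e : (A.map (Int.cast : ℤ → ℝ)).mulVec z i = ∑ j, A i j • z j := by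
      show ∑ j, ((A i j : ℤ) : ℝ) * z j = _
      simp [zsmul_eq_mul]
    rw [e]
    have h1 := map_sum (QuotientAddGroup.mk' (AddSubgroup.zmultiples (1 : ℝ)))
      (fun j => A i j • z j) Finset.univ
    have h2 : (((∑ j, A i j • z j : ℝ)) : UnitAddCircle) =
        ∑ j, ((A i j • z j : ℝ) : UnitAddCircle) := h1
    rw [h2]
    apply Finset.sum_congr rfl
    intro j _
    exact (map_zsmul (QuotientAddGroup.mk' (AddSubgroup.zmultiples (1 : ℝ))) (A i j) (z j)).symm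
  have key := no_unit hA haff hs
  refine ⟨fun μ hμ hroot => key μ hμ ?_, aff_chainHyp hA haff key⟩
  have e1 : (A.map (Int.cast : ℤ → ℝ)).map Complex.ofReal = A.map (Int.castRingHom ℂ) := by
    ext i j
    simp
  have h1 : BC (A.map (Int.cast : ℤ → ℝ)) = Matrix.toLin' (A.map (Int.castRingHom ℂ)) := by
    rw [← e1]
    rfl
  rw [h1, Module.End.hasEigenvalue_iff_isRoot_charpoly, Matrix.charpoly_toLin']
  exact hroot

end Pool.Agent.H576R3.AF
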